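import Mathlib

set_option autoImplicit false

namespace Pool.Agent.Results.MP_698df0_al.Incorrect

open MvPolynomial Relation

/-- position in the order `0 ≺ -1 ≺ 1 ≺ -2 ≺ 2 ≺ ⋯` -/
def rk (a : ℤ) : ℕ := if a < 0 then (-2 * a - 1).toNat else (2 * a).toNat

def M (a c : ℤ) : ℤ :=
  if 0 < a * c ∧ rk (a - c) < rk a then M (a - c) c + 1
  else if a * c < 0 ∧ rk (a + c) < rk a then M (a + c) c - 1 else 0
termination_by rk a
decreasing_by all_goals tauto

def L (c : ℤ) : ℤ := if Even c then |c| / 2 else -((|c| + 1) / 2)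
def LCR (c₁ c₂ : ℤ) : ℤ := if rk (L c₁) < rk (L c₂) then L c₂ else L c₁

abbrev P (n : ℕ) := MvPolynomial (Fin n) ℤ

variable {n : ℕ} (m : MonomialOrder (Fin n))

/-- the reduction relation `g →_F h` -/
def Red (F : Finset (P n)) (g h : P n) : Prop :=
  ∃ f ∈ F, ∃ (b : ℤ) (u : Fin n →₀ ℕ), coeff (u + m.degree f) g ≠ 0 ∧
    rk (coeff (u + m.degree f) g - b * m.leadingCoeff f) < rk (coeff (u + m.degree f) g) ∧
    h = g - monomial u b * f

def IsNF (S : Finset (P n) → P n → P n) : Prop :=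
  ∀ F g, ReflTransGen (Red m F) g (S F g) ∧ ∀ h, ¬ Red m F (S F g) h

def GB (F : Finset (P n)) : Prop :=
  ∀ g, ∃! h, ReflTransGen (Red m F) g h ∧ ∀ k, ¬ Red m F h k

/-- the member `a U - M(a, c) u f` of the critical pair of `f₁, f₂` that belongs to `f` -/
noncomputable def cp (f₁ f₂ f : P n) : P n :=
  monomial (m.degree f₁ ⊔ m.degree f₂) (LCR (m.leadingCoeff f₁) (m.leadingCoeff f₂)) -
    monomial (m.degree f₁ ⊔ m.degree f₂ - m.degree f)
      (M (LCR (m.leadingCoeff f₁) (m.leadingCoeff f₂)) (m.leadingCoeff f)) * f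

open Classical in
/-- one pass through the loop of Algorithm A' -/
def Step (S : Finset (P n) → P n → P n) (x y : Finset (P n) × Finset (Sym2 (P n))) : Prop :=
  ∃ f₁ f₂ h, s(f₁, f₂) ∈ x.2 ∧ h = S x.1 (cp m f₁ f₂ f₁ - cp m f₁ f₂ f₂) ∧
    y = if h = 0 then (x.1, x.2.erase s(f₁, f₂))
      else (insert h x.1, x.2.erase s(f₁, f₂) ∪ x.1.image fun g => s(g, h))

theorem ex_nf (F : Finset (P n)) (g : P n) :
    ∃ h, ReflTransGen (Red m F) g h ∧ ∀ k, ¬ Red m F h k := by
  haveI : Std.Trichotomous fun a b : Fin n →₀ ℕ => m.toSyn b < m.toSyn a :=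
    ⟨fun a b h k => m.toSyn.injective (le_antisymm (not_lt.1 h) (not_lt.1 k))⟩
  have wf := InvImage.wf (fun p : P n => AddMonoidAlgebra.coeff p) (Finsupp.Lex.wellFounded'
    (r := fun a b : Fin n →₀ ℕ => m.toSyn b < m.toSyn a) (s := fun a b : ℤ => rk a < rk b)
    (fun _ => by simp [rk]) (InvImage.wf rk wellFounded_lt) (InvImage.wf m.toSyn wellFounded_lt))
  induction g using wf.induction with
  | _ g ih =>
    by_cases h : ∃ k, Red m F g k
    · obtain ⟨k, hk⟩ := h
      obtain ⟨z, a, b⟩ := ih k (by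
        obtain ⟨f, -, b, u, -, h2, rfl⟩ := hk
        refine ⟨u + m.degree f, fun j hj => ?_, ?_⟩
        · show coeff j _ = coeff j _
          rw [coeff_sub, m.coeff_eq_zero_of_lt (f := monomial u b * f), sub_zero]
          refine lt_of_le_of_lt (m.degree_mul_le.trans ?_) hj
          rw [map_add, map_add]
          exact add_le_add_left (m.degree_monomial_le b) _
        · show rk (coeff _ _) < rk (coeff _ _)
          rwa [coeff_sub, coeff_monomial_mul])
      exact ⟨z, a.head hk, b⟩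
    · exact ⟨g, .refl, fun k hk => h ⟨k, hk⟩⟩

open Classical in
theorem result (n : ℕ) (m : MonomialOrder (Fin n)) : ∃ S, IsNF m S ∧
    ∀ F : Finset (P n), F = {C 3, C 8} →
      ReflTransGen (Step m S) (F, F.sym2) (F, ∅) ∧
      (∀ y, ReflTransGen (Step m S) (F, F.sym2) y → y.1 = F) ∧ ¬ GB m F := by
  have z : ∀ F k, ¬ Red m F 0 k := fun F k ⟨_, _, _, _, h, _⟩ => h (coeff_zero _)
  refine ⟨fun F g => if ReflTransGen (Red m F) g 0 then 0 else (ex_nf m F g).choose,
    fun F g => ?_, ?_⟩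
  · dsimp only
    split_ifs with h
    exacts [⟨h, z F⟩, (ex_nf m F g).choose_spec]
  rintro F hF
  have r : ∀ a b c : ℤ, C c ∈ F → a ≠ 0 → rk (a - b * c) < rk a → Red m F (C a) (C (a - b * c)) :=
    fun a b c h1 h2 h3 => ⟨_, h1, b, 0, by rwa [m.degree_C, add_zero, coeff_zero_C],
      by rwa [m.degree_C, add_zero, coeff_zero_C, m.leadingCoeff_C], by simp⟩
  have h3 : C 3 ∈ F := by simp [hF]
  have h8 : C 8 ∈ F := by simp [hF]
  have m3 : M 4 3 = 1 := by rw [M, M]; decide
  have m8 : M 4 8 = 1 := by rw [M, M]; decide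
  have k : ∀ f₁ ∈ F, ∀ f₂ ∈ F, ReflTransGen (Red m F) (cp m f₁ f₂ f₁ - cp m f₁ f₂ f₂) 0 := by
    have e1 : cp m (C 3) (C 8) (C 3) - cp m (C 3) (C 8) (C 8) = C 5 := by
      simp only [cp, m.degree_C, m.leadingCoeff_C, show LCR 3 8 = 4 by decide, m3, m8]
      simp; norm_num
    have e2 : cp m (C 8) (C 3) (C 8) - cp m (C 8) (C 3) (C 3) = C (-5) := by
      simp only [cp, m.degree_C, m.leadingCoeff_C, show LCR 8 3 = 4 by decide, m3, m8]
      simp; norm_num
    simp only [hF, Finset.mem_insert, Finset.mem_singleton, forall_eq_or_imp, forall_eq, sub_self,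
      e1, e2]
    rw [← hF]
    exact ⟨⟨.refl, .head (r 5 1 8 h8 (by decide) (by decide))
      (.single (by simpa using r (-3) (-1) 3 h3 (by decide) (by decide)))⟩,
      .head (r (-5) (-1) 8 h8 (by decide) (by decide))
      (.single (by simpa using r 3 1 3 h3 (by decide) (by decide))), .refl⟩
  refine ⟨?_, fun y hy => ?_, fun h => ?_⟩
  · suffices ∀ B ⊆ F.sym2, ReflTransGen (Step m _) (F, B) (F, ∅) from this _ subset_rfl
    intro B
    induction B using Finset.induction_on with
    | empty => exact fun _ => .refl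
    | insert p B hp ih =>
      intro hB
      induction p with
      | h f₁ f₂ =>
        obtain ⟨a, b⟩ := Finset.mk_mem_sym2_iff.1 (hB (Finset.mem_insert_self _ _))
        exact (ih ((Finset.subset_insert _ _).trans hB)).head ⟨f₁, f₂, 0, Finset.mem_insert_self _ _,
          (if_pos (k _ a _ b)).symm, by simp [Finset.erase_insert hp]⟩
  · suffices y.1 = F ∧ y.2 ⊆ F.sym2 from this.1
    induction hy with
    | refl => exact ⟨rfl, subset_rfl⟩
    | tail _ h ih =>
      obtain ⟨f₁, f₂, _, a, rfl, rfl⟩ := h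
      obtain ⟨b, c⟩ := Finset.mk_mem_sym2_iff.1 (ih.2 a)
      simp only [ih.1, k _ b _ c, if_true, true_and]
      exact (Finset.erase_subset _ _).trans ih.2
  · have := (h (C 8)).unique ⟨.single (by simpa using r 8 1 8 h8 (by decide) (by decide)), z F⟩
      (y₂ := C (8 - 3 * 3)) ⟨.single (r 8 3 3 h3 (by decide) (by decide)), ?_⟩
    · exact absurd (C_eq_zero.1 this.symm) (by decide)
    rintro _ ⟨f, hf, b, u, h1, h2, -⟩
    simp only [hF, Finset.mem_insert, Finset.mem_singleton] at hf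
    rcases hf with rfl | rfl <;>
    · rw [m.degree_C, add_zero, coeff_C] at h1 h2
      split_ifs at h1 h2
      · simp only [m.leadingCoeff_C, rk] at h2
        split_ifs at h2 <;> omega
      · exact h1 rfl

end Pool.Agent.Results.MP_698df0_al.Incorrect
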